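import Pool.Agent.Results.MP_b9ac25_al.FreeTypeInduced
import Pool.Agent.H335PN.TMAG1
import Pool.Agent.H335PN.TMAG2
import Pool.Agent.H335PN.TRF

set_option autoImplicit false

/-! # Groups with the lower central quotients of a free group: homomorphisms to nilpotent groups,
residual properties -/

namespace Pool.Agent.V8H64.PF

open Pool.Agent.Results.MP_b9ac25_al.FreeTypeInduced

universe u v w

/-- the version of `FreeTypeInduced.result` with a fixed set `X` -/
theorem induced_of (Γ : Type u) [Group Γ] (X : Type v)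
    (hX : ∀ n : ℕ, Nonempty (Γ ⧸ lcs Γ n ≃* FreeGroup X ⧸ lcs (FreeGroup X) n)) :
    ∃ φ : FreeGroup X →* Γ, ∀ n : ℕ, Function.Bijective (induced φ n) := by
  let e : ∀ n, Γ ⧸ lcs Γ n ≃* FreeGroup X ⧸ lcs (FreeGroup X) n := fun n => (hX n).some
  -- lift the inverse of the isomorphism of abelianizations
  have hlift : ∀ x : X, ∃ g : Γ, QuotientGroup.mk' (lcs Γ 1) g =
      (e 1).symm (QuotientGroup.mk' (lcs (FreeGroup X) 1) (FreeGroup.of x)) :=
    fun x => QuotientGroup.mk'_surjective _ _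
  choose g hg using hlift
  let φ : FreeGroup X →* Γ := FreeGroup.lift g
  have h1 : ∀ w : FreeGroup X, QuotientGroup.mk' (lcs Γ 1) (φ w) =
      (e 1).symm (QuotientGroup.mk' (lcs (FreeGroup X) 1) w) := by
    intro w
    have : (QuotientGroup.mk' (lcs Γ 1)).comp φ =
        (e 1).symm.toMonoidHom.comp (QuotientGroup.mk' (lcs (FreeGroup X) 1)) := by
      ext x
      simpa [φ] using hg x
    exact DFunLike.congr_fun this w
  refine ⟨φ, fun n => ?_⟩
  rcases Nat.eq_zero_or_pos n with rfl | hn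
  · have hs1 : Subsingleton (FreeGroup X ⧸ lcs (FreeGroup X) 0) :=
      QuotientGroup.subsingleton_quotient_top
    have hs2 : Subsingleton (Γ ⧸ lcs Γ 0) := QuotientGroup.subsingleton_quotient_top
    exact ⟨fun a b _ => Subsingleton.elim a b, fun b => ⟨1, Subsingleton.elim _ b⟩⟩
  · let A := FreeGroup X ⧸ lcs (FreeGroup X) n
    let θ : A →* A := (e n).toMonoidHom.comp (induced φ n)
    have hθ : ∀ w : FreeGroup X, θ (QuotientGroup.mk' _ w) =
        e n (QuotientGroup.mk' (lcs Γ n) (φ w)) := fun w => rfl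
    have hbij : Function.Bijective θ := by
      refine bij_of_ab (fun x : X => (QuotientGroup.mk' (lcs (FreeGroup X) n) (FreeGroup.of x)))
        (lcs_quot _ n) ?_ ?_ θ ?_ ?_
      · have : Set.range (fun x : X => (QuotientGroup.mk' (lcs (FreeGroup X) n)
            (FreeGroup.of x))) = (QuotientGroup.mk' (lcs (FreeGroup X) n)) ''
              Set.range FreeGroup.of := by
          rw [← Set.range_comp]; rfl
        rw [this, ← MonoidHom.map_closure, FreeGroup.closure_range_of]
        exact Subgroup.map_top_of_surjective _ (QuotientGroup.mk'_surjective _)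
      · intro f
        let ψ0 : FreeGroup X →* A := FreeGroup.lift f
        have hker : lcs (FreeGroup X) n ≤ ψ0.ker := by
          intro w hw
          have := map_mem_lcs ψ0 n hw
          rwa [lcs_quot, Subgroup.mem_bot] at this
        refine ⟨QuotientGroup.lift _ ψ0 hker, fun x => ?_⟩
        change QuotientGroup.lift _ ψ0 hker (QuotientGroup.mk (FreeGroup.of x)) = f x
        rw [QuotientGroup.lift_mk]
        simp [ψ0]
      · intro a
        obtain ⟨y, hy⟩ := QuotientGroup.mk'_surjective (lcs Γ n) ((e n).symm a)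
        obtain ⟨w, hw⟩ := QuotientGroup.mk'_surjective (lcs (FreeGroup X) 1)
          (e 1 (QuotientGroup.mk' (lcs Γ 1) y))
        have h2 : QuotientGroup.mk' (lcs Γ 1) (φ w) = QuotientGroup.mk' (lcs Γ 1) y := by
          rw [h1, hw, MulEquiv.symm_apply_apply]
        have h3 : φ w * y⁻¹ ∈ lcs Γ 1 := by
          apply (QuotientGroup.eq_one_iff (N := lcs Γ 1) _).mp
          change QuotientGroup.mk' (lcs Γ 1) (φ w * y⁻¹) = 1
          rw [map_mul, map_inv, h2, mul_inv_cancel]
        refine ⟨QuotientGroup.mk' _ w, ?_⟩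
        have h4 : a = e n (QuotientGroup.mk' (lcs Γ n) y) := by
          rw [hy, MulEquiv.apply_symm_apply]
        rw [hθ, h4, ← map_inv, ← map_mul, ← map_inv, ← map_mul]
        exact map_mem_lcs ((e n).toMonoidHom.comp (QuotientGroup.mk' (lcs Γ n))) 1 h3
      · intro a ha
        obtain ⟨w, rfl⟩ := QuotientGroup.mk'_surjective _ a
        rw [hθ] at ha
        have h2 : QuotientGroup.mk' (lcs Γ n) (φ w) ∈ lcs (Γ ⧸ lcs Γ n) 1 := by
          have := map_mem_lcs (e n).symm.toMonoidHom 1 ha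
          simpa using this
        have h3 : φ w ∈ lcs Γ 1 := mem_of_mk_mem hn h2
        have h4 : QuotientGroup.mk' (lcs Γ 1) (φ w) = 1 := (QuotientGroup.eq_one_iff _).mpr h3
        rw [h1] at h4
        have h5 : QuotientGroup.mk' (lcs (FreeGroup X) 1) w = 1 := by
          have := congrArg (e 1) h4
          rwa [MulEquiv.apply_symm_apply, map_one] at this
        have h6 : w ∈ lcs (FreeGroup X) 1 := (QuotientGroup.eq_one_iff _).mp h5
        exact map_mem_lcs (QuotientGroup.mk' (lcs (FreeGroup X) n)) 1 h6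
    have hcomp : (induced φ n : FreeGroup X ⧸ lcs (FreeGroup X) n → Γ ⧸ lcs Γ n) =
        (e n).symm ∘ θ := by
      funext a
      simp [θ]
    rw [hcomp]
    exact (e n).symm.bijective.comp hbij

section ext
variable {P : Type u} [Group P] {X : Type v} {φ : FreeGroup X →* P}

theorem induced_mk (n : ℕ) (w : FreeGroup X) :
    induced φ n (QuotientGroup.mk' _ w) = QuotientGroup.mk' (lcs P n) (φ w) := rfl

theorem exists_word (hφ : ∀ n : ℕ, Function.Bijective (induced φ n)) (n : ℕ) (x : P) :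
    ∃ w : FreeGroup X, (φ w)⁻¹ * x ∈ lcs P n := by
  obtain ⟨y, hy⟩ := (hφ n).2 (QuotientGroup.mk' _ x)
  obtain ⟨w, rfl⟩ := QuotientGroup.mk'_surjective _ y
  refine ⟨w, ?_⟩
  rw [induced_mk] at hy
  exact QuotientGroup.eq.1 hy

theorem exists_desc (hφ : ∀ n : ℕ, Function.Bijective (induced φ n)) {E : Type w} [Group E]
    (n : ℕ) (ψ0 : FreeGroup X →* E) (hψ : ∀ v ∈ lcs (FreeGroup X) n, ψ0 v = 1) :
    ∃ h : P →* E, (∀ w, h (φ w) = ψ0 w) ∧ ∀ x ∈ lcs P n, h x = 1 := by
  have hker : lcs (FreeGroup X) n ≤ ψ0.ker := fun v hv => hψ v hv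
  let ψ : FreeGroup X ⧸ lcs (FreeGroup X) n →* E := QuotientGroup.lift _ ψ0 hker
  let ε := MulEquiv.ofBijective (induced φ n) (hφ n)
  refine ⟨(ψ.comp ε.symm.toMonoidHom).comp (QuotientGroup.mk' (lcs P n)), fun w => ?_,
    fun x hx => ?_⟩
  · have h1 : ε.symm (QuotientGroup.mk' (lcs P n) (φ w)) = QuotientGroup.mk' _ w := by
      rw [MulEquiv.symm_apply_eq]
      rfl
    change ψ (ε.symm (QuotientGroup.mk' (lcs P n) (φ w))) = ψ0 w
    rw [h1]
    rfl
  · have h1 : QuotientGroup.mk' (lcs P n) x = 1 := (QuotientGroup.eq_one_iff x).2 hx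
    rw [MonoidHom.comp_apply, h1, map_one]

/-- Homomorphisms to nilpotent groups can be prescribed on the images of the basis. -/
theorem exists_ext (hφ : ∀ n : ℕ, Function.Bijective (induced φ n)) {E : Type w} [Group E]
    [hE : Group.IsNilpotent E] (e : X → E) : ∃ h : P →* E, ∀ x, h (φ (FreeGroup.of x)) = e x := by
  obtain ⟨n, hn⟩ := Subgroup.nilpotent_iff_lowerCentralSeries.1 hE
  obtain ⟨h, hh, -⟩ := exists_desc hφ n (FreeGroup.lift e) (by
    intro v hv
    have := map_mem_lcs (FreeGroup.lift e) n hv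
    unfold lcs at this
    rwa [hn, Subgroup.mem_bot] at this)
  exact ⟨h, fun x => by rw [hh]; simp⟩

theorem unique_ext (hφ : ∀ n : ℕ, Function.Bijective (induced φ n)) {E : Type w} [Group E]
    [hE : Group.IsNilpotent E] (h h' : P →* E)
    (hh : ∀ x, h (φ (FreeGroup.of x)) = h' (φ (FreeGroup.of x))) : h = h' := by
  obtain ⟨n, hn⟩ := Subgroup.nilpotent_iff_lowerCentralSeries.1 hE
  have h1 : ∀ w, h (φ w) = h' (φ w) := by
    have : h.comp φ = h'.comp φ := by
      ext x
      exact hh x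
    exact fun w => DFunLike.congr_fun this w
  ext x
  obtain ⟨w, hw⟩ := exists_word hφ n x
  have h2 : ∀ k : P →* E, k ((φ w)⁻¹ * x) = 1 := by
    intro k
    have := map_mem_lcs k n hw
    unfold lcs at this
    rwa [hn, Subgroup.mem_bot] at this
  have h3 : ∀ k : P →* E, k x = k (φ w) := by
    intro k
    have := h2 k
    rw [map_mul, map_inv, inv_mul_eq_one] at this
    exact this.symm
  rw [h3, h3 h', h1]

end ext

/-! ### residual finiteness -/

theorem lcs_eq (G : Type) [Group G] (n : ℕ) :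
    Pool.Agent.H335PN.lcs (⊤ : Subgroup G) n = lcs G n := by
  induction n with
  | zero => rfl
  | succ n ih => rw [lcs_succ, ← ih]; rfl

open Pool.Agent.H335PN Pool.Agent.H335PN.TRF in
/-- free groups of finite rank modulo a term of the lower central series are residually finite-`p` -/
theorem res_fin (r p : ℕ) (hp : p.Prime) (c : ℕ) (w : FreeGroup (Fin r))
    (hw : w ∉ Pool.Agent.Results.MP_b9ac25_al.FreeTypeInduced.lcs (FreeGroup (Fin r)) c) :
    ∃ (Q : Type) (_ : Group Q) (_ : Finite Q) (f : FreeGroup (Fin r) →* Q), IsPGroup p Q ∧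
      (∀ v ∈ Pool.Agent.Results.MP_b9ac25_al.FreeTypeInduced.lcs (FreeGroup (Fin r)) c,
        f v = 1) ∧ f w ≠ 1 := by
  rw [← lcs_eq] at hw
  have hMAG : S_MAG2 := t_MAG2 t_MAG1
  rw [hMAG] at hw
  push Not at hw
  obtain ⟨L, hL⟩ := hw
  obtain ⟨i, j, hij⟩ : ∃ i j, (rep ℤ L w : Matrix (Fin (c + 1)) (Fin (c + 1)) ℤ) i j ≠
      (1 : Matrix (Fin (c + 1)) (Fin (c + 1)) ℤ) i j := by
    by_contra hcon
    push Not at hcon
    exact hL (Units.ext (Matrix.ext hcon))
  obtain ⟨m, hm⟩ := exists_pow_not_dvd hp _ (sub_ne_zero.2 hij)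
  have hk : ((p ^ m : ℕ) : ZMod (p ^ m)) = 0 := ZMod.natCast_self _
  have : NeZero (p ^ m) := ⟨(Nat.pow_pos hp.pos).ne'⟩
  have hrep : rep (ZMod (p ^ m)) L w ≠ 1 := by
    intro h2
    rw [rep_base] at h2
    have h3 := congrArg (fun U : (Matrix (Fin (c + 1)) (Fin (c + 1)) (ZMod (p ^ m)))ˣ =>
      (U : Matrix (Fin (c + 1)) (Fin (c + 1)) (ZMod (p ^ m))) i j) h2
    simp only [Units.coe_map, Units.val_one] at h3
    have h4 : (((rep ℤ L w : Matrix (Fin (c + 1)) (Fin (c + 1)) ℤ) i j : ℤ) : ZMod (p ^ m)) =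
      (((1 : Matrix (Fin (c + 1)) (Fin (c + 1)) ℤ) i j : ℤ) : ZMod (p ^ m)) := by
      refine Eq.trans h3 ?_
      rw [Matrix.one_apply, Matrix.one_apply]
      split_ifs <;> simp
    refine base_entry p m _ hm ?_
    rw [Int.cast_sub, h4, sub_self]
  refine ⟨Unit → UT (ZMod (p ^ m)) c p m hp hk, inferInstance, inferInstance,
    MonoidHom.mk' (fun u _ => repU (ZMod (p ^ m)) hp hk L u) (fun a b => by
      funext x; simp [Pi.mul_apply]),
    UT_pgroup _ _ _ _ _, ?_, ?_⟩
  · intro v hv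
    rw [← lcs_eq] at hv
    have h5 := (hMAG (Fin r) c v).1 hv L
    funext x
    refine Subtype.ext ?_
    change rep (ZMod (p ^ m)) L v = 1
    rw [rep_base, h5, map_one]
  · intro h6
    apply hrep
    have h7 := congrFun h6 ()
    exact congrArg Subtype.val h7

/-- letters of a word -/
theorem letters {X : Type v} (u : FreeGroup X) :
    ∃ S : Finset X, u ∈ Subgroup.closure (FreeGroup.of '' (S : Set X)) := by
  classical
  induction u using FreeGroup.induction_on with
  | C1 => exact ⟨∅, one_mem _⟩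
  | of x => exact ⟨{x}, Subgroup.subset_closure ⟨x, by simp, rfl⟩⟩
  | inv_of x h =>
    obtain ⟨S, hS⟩ := h
    exact ⟨S, inv_mem hS⟩
  | mul x y hx hy =>
    obtain ⟨S, hS⟩ := hx
    obtain ⟨T, hT⟩ := hy
    refine ⟨S ∪ T, mul_mem ?_ ?_⟩
    · refine Subgroup.closure_mono (Set.image_mono ?_) hS
      simp
    · refine Subgroup.closure_mono (Set.image_mono ?_) hT
      simp

/-- free groups modulo a term of the lower central series are residually finite-`p` -/
theorem res_free (X : Type v) (p : ℕ) (hp : p.Prime) (c : ℕ) (w : FreeGroup X)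
    (hw : w ∉ lcs (FreeGroup X) c) :
    ∃ (Q : Type) (_ : Group Q) (_ : Finite Q) (f : FreeGroup X →* Q), IsPGroup p Q ∧
      (∀ v ∈ lcs (FreeGroup X) c, f v = 1) ∧ f w ≠ 1 := by
  classical
  obtain ⟨S, hS⟩ := letters w
  let ρ : FreeGroup X →* FreeGroup (Fin S.card) :=
    FreeGroup.lift fun x => if hx : x ∈ S then FreeGroup.of (S.equivFin ⟨x, hx⟩) else 1
  let κ : FreeGroup (Fin S.card) →* FreeGroup X :=
    FreeGroup.lift fun i => FreeGroup.of ((S.equivFin.symm i : S) : X)
  have h0 : ∀ v ∈ Subgroup.closure (FreeGroup.of '' (S : Set X)), κ (ρ v) = v := by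
    intro v hv
    induction hv using Subgroup.closure_induction with
    | mem x hx =>
      obtain ⟨y, hy, rfl⟩ := hx
      have hy' : y ∈ S := hy
      simp [ρ, κ, hy']
    | one => simp
    | mul x y _ _ hx hy => rw [map_mul, map_mul, hx, hy]
    | inv x _ hx => rw [map_inv, map_inv, hx]
  have h1 : κ (ρ w) = w := h0 w hS
  have h2 : ρ w ∉ lcs (FreeGroup (Fin S.card)) c := fun h => hw (by
    rw [← h1]
    exact map_mem_lcs κ c h)
  obtain ⟨Q, i1, i2, f, hQ, hf1, hf2⟩ := res_fin S.card p hp c (ρ w) h2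
  exact ⟨Q, i1, i2, f.comp ρ, hQ, fun v hv => hf1 _ (map_mem_lcs ρ c hv), hf2⟩

/-- groups with the lower central quotients of a free group, which are residually nilpotent, are
residually finite-`p` -/
theorem res_P {P : Type u} [Group P] {X : Type v} {φ : FreeGroup X →* P}
    (hφ : ∀ n : ℕ, Function.Bijective (induced φ n))
    (hres : ∀ x : P, (∀ n : ℕ, x ∈ lcs P n) → x = 1) (p : ℕ) (hp : p.Prime) (x : P) (hx : x ≠ 1) :
    ∃ (Q : Type) (_ : Group Q) (_ : Finite Q) (f : P →* Q), IsPGroup p Q ∧ f x ≠ 1 := by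
  obtain ⟨n, hn⟩ : ∃ n, x ∉ lcs P n := by
    by_contra hcon
    push Not at hcon
    exact hx (hres x hcon)
  obtain ⟨w, hw⟩ := exists_word hφ n x
  have h1 : w ∉ lcs (FreeGroup X) n := by
    intro h
    apply hn
    have h2 := map_mem_lcs φ n h
    have := mul_mem h2 hw
    rwa [mul_inv_cancel_left] at this
  obtain ⟨Q, i1, i2, f, hQ, hf1, hf2⟩ := res_free X p hp n w h1
  obtain ⟨h, hh, hh'⟩ := exists_desc hφ n f hf1
  refine ⟨Q, i1, i2, h, hQ, fun h3 => hf2 ?_⟩
  have h4 := hh' _ hw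
  rw [map_mul, map_inv, h3, mul_one, inv_eq_one, hh] at h4
  exact h4

/-- separation of finite sets -/
theorem res_P_inj {P : Type u} [Group P] {X : Type v} {φ : FreeGroup X →* P}
    (hφ : ∀ n : ℕ, Function.Bijective (induced φ n))
    (hres : ∀ x : P, (∀ n : ℕ, x ∈ lcs P n) → x = 1) (p : ℕ) (hp : p.Prime) (T : Finset P) :
    ∃ (Q : Type) (_ : Group Q) (_ : Finite Q) (f : P →* Q), IsPGroup p Q ∧ Set.InjOn f T := by
  classical
  have key : ∀ S : Finset P, (1 : P) ∉ S → ∃ (Q : Type) (_ : Group Q) (_ : Finite Q)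
      (f : P →* Q), IsPGroup p Q ∧ ∀ s ∈ S, f s ≠ 1 := by
    intro S
    induction S using Finset.induction_on with
    | empty =>
      intro _
      refine ⟨Unit, inferInstance, inferInstance, 1, ?_, by simp⟩
      intro x
      exact ⟨0, Subsingleton.elim _ _⟩
    | insert a S ha ih =>
      intro hS
      obtain ⟨Q, i1, i2, f, hQ, hf⟩ := ih (fun h => hS (Finset.mem_insert_of_mem h))
      obtain ⟨Q', i1', i2', f', hQ', hf'⟩ := res_P hφ hres p hp a
        (fun h => hS (h ▸ Finset.mem_insert_self _ _))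
      refine ⟨Q' × Q, inferInstance, inferInstance, f'.prod f,
        Pool.Agent.H335PN.TRF.pgrp_prod hQ' hQ, ?_⟩
      intro s hs h0
      rw [MonoidHom.prod_apply, Prod.mk_eq_one] at h0
      rcases Finset.mem_insert.1 hs with rfl | h1
      · exact hf' h0.1
      · exact hf s h1 h0.2
  obtain ⟨Q, i1, i2, f, hQ, hf⟩ := key
    (((T ×ˢ T).filter (fun x => x.1 ≠ x.2)).image (fun x => x.1 * x.2⁻¹)) (by
      intro h1
      obtain ⟨x, hx, hx1⟩ := Finset.mem_image.1 h1
      exact (Finset.mem_filter.1 hx).2 (mul_inv_eq_one.1 hx1))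
  refine ⟨Q, i1, i2, f, hQ, ?_⟩
  intro a ha b hb hab
  by_contra hne
  refine hf (a * b⁻¹) ?_ ?_
  · exact Finset.mem_image.2 ⟨(a, b), Finset.mem_filter.2 ⟨Finset.mem_product.2 ⟨ha, hb⟩, hne⟩, rfl⟩
  · rw [map_mul, map_inv, hab, mul_inv_cancel]

/-- Parafree groups are torsion-free. -/
theorem torsion_free {P : Type u} [Group P] {X : Type v} {φ : FreeGroup X →* P}
    (hφ : ∀ n : ℕ, Function.Bijective (induced φ n))
    (hres : ∀ x : P, (∀ n : ℕ, x ∈ lcs P n) → x = 1) (x : P) (hx : x ≠ 1) :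
    ¬ IsOfFinOrder x := by
  intro hf
  -- reduce to prime order
  have hpos := hf.orderOf_pos
  have h1 : orderOf x ≠ 1 := fun h => hx (orderOf_eq_one_iff.1 h)
  obtain ⟨q, hq, hqd⟩ := Nat.exists_prime_and_dvd h1
  obtain ⟨m, hm⟩ := hqd
  have hm0 : 0 < m := Nat.pos_of_ne_zero (by rintro rfl; omega)
  set y := x ^ m with hy
  have hyq : y ^ q = 1 := by rw [hy, ← pow_mul, mul_comm, ← hm, pow_orderOf_eq_one]
  have hy1 : y ≠ 1 := by
    intro h
    have := orderOf_dvd_of_pow_eq_one (x := x) (n := m) h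
    have h2 := Nat.le_of_dvd hm0 this
    have h3 := hq.two_le
    nlinarith
  obtain ⟨p, hp, hpq⟩ : ∃ p : ℕ, p.Prime ∧ p ≠ q := by
    by_cases h : q = 2
    · exact ⟨3, Nat.prime_three, by omega⟩
    · exact ⟨2, Nat.prime_two, fun h' => h h'.symm⟩
  obtain ⟨Q, i1, i2, f, hQ, hfy⟩ := res_P hφ hres p hp y hy1
  obtain ⟨k, hk⟩ := hQ (f y)
  have h4 : orderOf (f y) ∣ p ^ k := orderOf_dvd_of_pow_eq_one hk
  have h5 : orderOf (f y) ∣ q := orderOf_dvd_of_pow_eq_one (by rw [← map_pow, hyq, map_one])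
  have h6 : Nat.Coprime (p ^ k) q := Nat.Coprime.pow_left k ((Nat.coprime_primes hp hq).2 hpq)
  have h7 : orderOf (f y) = 1 := Nat.eq_one_of_dvd_coprimes h6 h4 h5
  exact hfy (orderOf_eq_one_iff.1 h7)

end Pool.Agent.V8H64.PF
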