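import Pool.Agent.R684.PN.Stm
import Pool.Agent.R372.VG.TR

set_option autoImplicit false

/-! # Comparison of the von Neumann dimensions over a group and over a subgroup -/

open scoped InnerProductSpace InnerProduct ENNReal

namespace Pool.Agent.V8H64.PF

open Pool.Agent.W649.ZL Pool.Agent.R684.PN

section res
variable {X Y : Type}

theorem mem_res (κ : Y → X) (hκ : Function.Injective κ) (f : lp (fun _ : X => ℂ) 2) :
    Memℓp (fun y => f (κ y)) 2 := by
  rw [memlp_two_iff]
  exact ((memlp_two_iff _).1 f.2).comp_injective hκ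

/-- restriction along an injective map -/
noncomputable def resFun (κ : Y → X) (hκ : Function.Injective κ) (f : lp (fun _ : X => ℂ) 2) :
    lp (fun _ : Y => ℂ) 2 := ⟨fun y => f (κ y), mem_res κ hκ f⟩

theorem norm_resFun_le (κ : Y → X) (hκ : Function.Injective κ) (f : lp (fun _ : X => ℂ) 2) :
    ‖resFun κ hκ f‖ ≤ ‖f‖ := by
  have key : ‖resFun κ hκ f‖ ^ 2 ≤ ‖f‖ ^ 2 := by
    rw [Pool.Agent.R372.VG.TR.nsq, Pool.Agent.R372.VG.TR.nsq]
    have h1 := (memlp_two_iff _).1 f.2
    exact tsum_comp_le_tsum_of_inj h1 (fun _ => by positivity) hκ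
  exact (sq_le_sq₀ (norm_nonneg _) (norm_nonneg _)).1 key

/-- restriction along an injective map, as a bounded operator -/
noncomputable def res (κ : Y → X) (hκ : Function.Injective κ) :
    lp (fun _ : X => ℂ) 2 →L[ℂ] lp (fun _ : Y => ℂ) 2 :=
  LinearMap.mkContinuous
    { toFun := resFun κ hκ
      map_add' := fun f g => by ext x; rfl
      map_smul' := fun c f => by ext x; rfl } 1
    (fun h => by rw [one_mul]; exact norm_resFun_le κ hκ h)

theorem res_apply (κ : Y → X) (hκ : Function.Injective κ) (f : lp (fun _ : X => ℂ) 2) (y : Y) :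
    res κ hκ f y = f (κ y) := rfl

theorem norm_res_le (κ : Y → X) (hκ : Function.Injective κ) (f : lp (fun _ : X => ℂ) 2) :
    ‖res κ hκ f‖ ≤ ‖f‖ := norm_resFun_le κ hκ f

end res

/-- Comparison of dimensions for a subgroup. -/
theorem cmp {Γ H S J : Type} [Group Γ] [Group H] [Fintype S] [Fintype J] (ι : H →* Γ)
    (hι : Function.Injective ι) (U : Submodule ℂ (EE Γ S)) (hU : IsClosed (U : Set (EE Γ S)))
    (hI : Pool.Agent.W649.ZL.Inv U) (B : EE Γ S →L[ℂ] EE H J)
    (hB : ∀ (k : H) (f : EE Γ S), B (tr (ι k) f) = tr k (B f))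
    (hinj : ∀ f ∈ U, B f = 0 → f = 0) (W : Submodule ℂ (EE H J)) (hW : ∀ f ∈ U, B f ∈ W)
    (m : ℕ) (g : Fin m → Γ) (hg : ∀ (t t' : Fin m) (h : H), g t * ι h = g t' → t = t') :
    (m : ℝ) * vd U ≤ vd W := by
  classical
  have : CompleteSpace U := hU.completeSpace_coe
  have hκ : Function.Injective
      (fun y : H × (Fin m × S) => ((g y.2.1 * ι y.1, y.2.2) : Γ × S)) := by
    rintro ⟨h, t, s⟩ ⟨h', t', s'⟩ he
    simp only [Prod.mk.injEq] at he
    obtain ⟨h1, rfl⟩ := he
    have h2 : g t * ι (h * h'⁻¹) = g t' := by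
      rw [map_mul, map_inv, ← mul_assoc, h1, mul_inv_cancel_right]
    have h3 := hg t t' _ h2
    subst h3
    have h4 := hι (mul_left_cancel h1)
    rw [h4]
  set R : EE Γ S →L[ℂ] EE H (Fin m × S) := res _ hκ with hR
  have hRe : ∀ (k : H) (f : EE Γ S), R (tr (ι k) f) = tr k (R f) := by
    intro k f
    ext ⟨h, t, s⟩
    change f (g t * ι h * ι k, s) = f (g t * ι (h * k), s)
    rw [map_mul, mul_assoc]
  -- the operators
  set Bp : EE Γ S →L[ℂ] EE H J := B.comp U.starProjection with hBp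
  have hBpe : ∀ (k : H) (f : EE Γ S), Bp (tr (ι k) f) = tr k (Bp f) := by
    intro k f
    rw [hBp, ContinuousLinearMap.comp_apply, ContinuousLinearMap.comp_apply, proj_tr hI, hB]
  have hBae : ∀ (k : H) (f : EE H J), ContinuousLinearMap.adjoint Bp (tr k f)
      = tr (ι k) (ContinuousLinearMap.adjoint Bp f) := by
    intro k f
    apply ext_inner_right ℂ
    intro v
    rw [ContinuousLinearMap.adjoint_inner_left, inner_tr_left, inner_tr_left,
      ContinuousLinearMap.adjoint_inner_left, ← map_inv, hBpe]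
  set X : EE H J →L[ℂ] EE H (Fin m × S) := R.comp (ContinuousLinearMap.adjoint Bp) with hX
  have hXe : Eqv X := by
    intro k f
    rw [hX, ContinuousLinearMap.comp_apply, ContinuousLinearMap.comp_apply, hBae, hRe]
  -- upper bound
  have h1 : vd (LinearMap.range (X : EE H J →ₗ[ℂ] EE H (Fin m × S))) ≤ vd W := by
    rw [← vd_range_adjoint X hXe]
    apply vd_mono
    rintro y ⟨x, rfl⟩
    have e : ContinuousLinearMap.adjoint X x = B (U.starProjection
        (ContinuousLinearMap.adjoint R x)) := by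
      rw [hX, ContinuousLinearMap.adjoint_comp, ContinuousLinearMap.adjoint_adjoint]
      rfl
    change ContinuousLinearMap.adjoint X x ∈ W
    rw [e]
    exact hW _ (Submodule.starProjection_apply_mem _ _)
  refine le_trans ?_ h1
  set Y := (LinearMap.range (X : EE H J →ₗ[ℂ] EE H (Fin m × S))).topologicalClosure with hY
  -- `R U ⊆ Y`
  have h2 : ∀ u ∈ U, R u ∈ Y := by
    intro u hu
    have h3 : u ∈ (LinearMap.range
        ((ContinuousLinearMap.adjoint Bp : EE H J →L[ℂ] EE Γ S) : EE H J →ₗ[ℂ] EE Γ S)).topologicalClosure := by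
      have h0 := ContinuousLinearMap.orthogonal_ker Bp
      have h4 : u ∈ (LinearMap.ker (Bp : EE Γ S →ₗ[ℂ] EE H J))ᗮ := by
        rw [Submodule.mem_orthogonal]
        intro v hv
        have hv' : B (U.starProjection v) = 0 := hv
        have hv0 := hinj _ (Submodule.starProjection_apply_mem _ _) hv'
        have h5 : ⟪v - U.starProjection v, u⟫_ℂ = 0 :=
          Submodule.starProjection_inner_eq_zero v u hu
        rwa [hv0, sub_zero] at h5
      rw [h0] at h4
      exact h4
    have h5 : u ∈ closure ((LinearMap.range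
        ((ContinuousLinearMap.adjoint Bp : EE H J →L[ℂ] EE Γ S) : EE H J →ₗ[ℂ] EE Γ S) :
          Submodule ℂ (EE Γ S)) : Set (EE Γ S)) := by
      rw [← Submodule.topologicalClosure_coe]; exact h3
    have h6 : R u ∈ closure ((LinearMap.range (X : EE H J →ₗ[ℂ] EE H (Fin m × S)) :
        Submodule ℂ (EE H (Fin m × S))) : Set (EE H (Fin m × S))) := by
      refine map_mem_closure R.continuous h5 ?_
      rintro y ⟨x, rfl⟩
      exact ⟨x, rfl⟩
    rw [← Submodule.topologicalClosure_coe] at h6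
    exact h6
  -- comparison of norms
  have h7 : ∀ (t : Fin m) (s : S), ‖U.starProjection (dl ((1 : Γ), s))‖ ^ 2
      ≤ ‖Y.starProjection (dl ((1 : H), (t, s)))‖ ^ 2 := by
    intro t s
    have e0 : (dl (g t, s) : EE Γ S) = tr (g t)⁻¹ (dl ((1 : Γ), s)) := by
      rw [tr_dl, one_mul, inv_inv]
    have e1 : ‖U.starProjection (dl ((1 : Γ), s))‖ = ‖U.starProjection (dl (g t, s))‖ := by
      rw [e0, proj_tr hI, norm_tr]
    rw [e1]
    set e : EE Γ S := dl (g t, s) with he
    set u := U.starProjection e with hu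
    have huU : u ∈ U := Submodule.starProjection_apply_mem _ _
    have e2 : (⟪e, u⟫_ℂ).re = ‖u‖ ^ 2 := (norm_sq_star U e).symm
    have e3 : ⟪(dl ((1 : H), (t, s)) : EE H (Fin m × S)), R u⟫_ℂ = ⟪e, u⟫_ℂ := by
      rw [inner_dl_left, he, inner_dl_left]
      change u (g t * ι 1, s) = u (g t, s)
      rw [map_one, mul_one]
    have e4 : ⟪(dl ((1 : H), (t, s)) : EE H (Fin m × S)), R u⟫_ℂ
        = ⟪Y.starProjection (dl ((1 : H), (t, s))), R u⟫_ℂ := by
      have h8 : ⟪(dl ((1 : H), (t, s)) : EE H (Fin m × S))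
          - Y.starProjection (dl ((1 : H), (t, s))), R u⟫_ℂ = 0 :=
        Submodule.starProjection_inner_eq_zero _ _ (h2 u huU)
      rw [inner_sub_left, sub_eq_zero] at h8
      exact h8
    have e5 : ‖u‖ ^ 2 ≤ ‖Y.starProjection (dl ((1 : H), (t, s)))‖ * ‖u‖ := by
      calc ‖u‖ ^ 2 = (⟪Y.starProjection (dl ((1 : H), (t, s))), R u⟫_ℂ).re := by
            rw [← e4, e3, e2]
        _ ≤ ‖⟪Y.starProjection (dl ((1 : H), (t, s))), R u⟫_ℂ‖ := Complex.re_le_norm _
        _ ≤ ‖Y.starProjection (dl ((1 : H), (t, s)))‖ * ‖R u‖ := norm_inner_le_norm _ _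
        _ ≤ _ := by
            gcongr
            exact norm_res_le _ hκ u
    have e6 : ‖u‖ ≤ ‖Y.starProjection (dl ((1 : H), (t, s)))‖ := by
      rcases (norm_nonneg u).eq_or_lt with h | h
      · rw [← h]; exact norm_nonneg _
      · have : ‖u‖ * ‖u‖ ≤ ‖Y.starProjection (dl ((1 : H), (t, s)))‖ * ‖u‖ := by
          rw [← sq]; exact e5
        exact le_of_mul_le_mul_right this h
    gcongr
  have h9 : vd (LinearMap.range (X : EE H J →ₗ[ℂ] EE H (Fin m × S)))
      = ∑ y : Fin m × S, ‖Y.starProjection (dl ((1 : H), y))‖ ^ 2 := rfl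
  rw [h9, vd_eq U U (topcl_eq hU), Fintype.sum_prod_type]
  calc (m : ℝ) * ∑ s : S, ‖U.starProjection (dl ((1 : Γ), s))‖ ^ 2
      = ∑ _t : Fin m, ∑ s : S, ‖U.starProjection (dl ((1 : Γ), s))‖ ^ 2 := by
        rw [Finset.sum_const, Finset.card_univ, Fintype.card_fin, nsmul_eq_mul]
    _ ≤ _ := Finset.sum_le_sum fun t _ => Finset.sum_le_sum fun s _ => h7 t s

end Pool.Agent.V8H64.PF
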