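import Pool.Agent.V8H64.PF.Alg

set_option autoImplicit false

/-! # Derivations of parafree groups with values in the functions on a finite `p`-quotient -/

namespace Pool.Agent.V8H64.PF

open Pool.Agent.Results.MP_b9ac25_al.FreeTypeInduced

universe u v w

/-- translation of functions -/
def trAct (G A : Type) [Group G] [Group A] : G →* MulAut (G → A) where
  toFun g :=
    { toFun := fun f x => f (g⁻¹ * x)
      invFun := fun f x => f (g * x)
      left_inv := fun f => by funext x; simp
      right_inv := fun f => by funext x; simp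
      map_mul' := fun f f' => rfl }
  map_one' := by
    ext f x
    change f (1⁻¹ * x) = f x
    simp
  map_mul' g h := by
    ext f x
    change f ((g * h)⁻¹ * x) = f (h⁻¹ * (g⁻¹ * x))
    rw [mul_inv_rev, mul_assoc]

theorem trAct_apply (G A : Type) [Group G] [Group A] (g : G) (f : G → A) (x : G) :
    trAct G A g f x = f (g⁻¹ * x) := rfl

theorem exists_ell (p : ℕ) (hp : p.Prime) : ∃ ℓ : (∀ s : ℕ, ZMod (p ^ s)) →+ ℂ,
    ∀ n : ℤ, ℓ (fun s => (n : ZMod (p ^ s))) = n := by
  let f : ℤ →+ (∀ s : ℕ, ZMod (p ^ s)) := (Int.castRingHom (∀ s : ℕ, ZMod (p ^ s))).toAddMonoidHom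
  have hf : Function.Injective f := by
    rw [injective_iff_map_eq_zero]
    intro n hn
    by_contra h0
    obtain ⟨m, hm⟩ := Pool.Agent.H335PN.TRF.exists_pow_not_dvd hp n h0
    apply hm
    have h1 := congrFun hn m
    have h2 : ((n : ℤ) : ZMod (p ^ m)) = 0 := h1
    exact (ZMod.intCast_zmod_eq_zero_iff_dvd n (p ^ m)).1 h2
  obtain ⟨ℓ, hℓ⟩ := (Module.Baer.of_divisible ℂ).extension_property_addMonoidHom f hf
    (Int.castRingHom ℂ).toAddMonoidHom
  refine ⟨ℓ, fun n => ?_⟩
  have h1 := DFunLike.congr_fun hℓ n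
  exact h1

/-- Derivations with values in `ℂ^G`, `G` a finite `p`-group quotient, can be prescribed on the
images of the basis. -/
theorem exists_der {P : Type u} [Group P] {X : Type v} {φ : FreeGroup X →* P}
    (hφ : ∀ n : ℕ, Function.Bijective (induced φ n)) (p : ℕ) (hp : p.Prime) (G : Type) [Group G]
    [Finite G] (hG : IsPGroup p G) (q : P →* G) (e : X → G → ℤ) :
    ∃ c : P → G → ℂ, (∀ g h x, c (g * h) x = c g x + c h ((q g)⁻¹ * x)) ∧
      ∀ x y, c (φ (FreeGroup.of x)) y = e x y := by
  have : Fact p.Prime := ⟨hp⟩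
  have hGn : Group.IsNilpotent G := hG.isNilpotent
  have key : ∀ s : ℕ, ∃ c : P → G → ZMod (p ^ s),
      (∀ g h x, c (g * h) x = c g x + c h ((q g)⁻¹ * x)) ∧
      ∀ x y, c (φ (FreeGroup.of x)) y = e x y := by
    intro s
    have : NeZero (p ^ s) := ⟨(Nat.pow_pos hp.pos).ne'⟩
    let A := Multiplicative (ZMod (p ^ s))
    have hA : IsPGroup p (G → A) := by
      intro a
      refine ⟨s, ?_⟩
      funext y
      apply Multiplicative.toAdd.injective
      change Multiplicative.toAdd ((a y) ^ (p ^ s)) = 0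
      rw [toAdd_pow, nsmul_eq_mul, Nat.cast_pow]
      have : ((p : ZMod (p ^ s)) ^ s) = 0 := by
        rw [← Nat.cast_pow, ZMod.natCast_self]
      rw [this, zero_mul]
    have : Finite A := inferInstanceAs (Finite (ZMod (p ^ s)))
    have : Finite (G → A) := Pi.finite
    have hfin : Finite ((G → A) ⋊[trAct G A] G) := Pool.Agent.H335PN.TRF.sd_finite _
    have hpg : IsPGroup p ((G → A) ⋊[trAct G A] G) := Pool.Agent.H335PN.TRF.sd_pgroup _ hA hG
    have hnil : Group.IsNilpotent ((G → A) ⋊[trAct G A] G) := hpg.isNilpotent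
    obtain ⟨h, hh⟩ := exists_ext hφ (E := (G → A) ⋊[trAct G A] G)
      (fun x => ⟨fun y => Multiplicative.ofAdd (e x y : ZMod (p ^ s)), q (φ (FreeGroup.of x))⟩)
    have hr : SemidirectProduct.rightHom.comp h = q := by
      apply unique_ext hφ
      intro x
      rw [MonoidHom.comp_apply, hh]
      rfl
    have hr' : ∀ g, (h g).right = q g := fun g => DFunLike.congr_fun hr g
    refine ⟨fun g x => Multiplicative.toAdd ((h g).left x), ?_, ?_⟩
    · intro g k x
      change Multiplicative.toAdd ((h (g * k)).left x) = Multiplicative.toAdd ((h g).left x) +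
        Multiplicative.toAdd ((h k).left ((q g)⁻¹ * x))
      rw [map_mul, SemidirectProduct.mul_left, Pi.mul_apply, trAct_apply, hr', toAdd_mul]
    · intro x y
      change Multiplicative.toAdd ((h (φ (FreeGroup.of x))).left y) = _
      rw [hh]
      rfl
  choose c hc1 hc2 using key
  obtain ⟨ℓ, hℓ⟩ := exists_ell p hp
  refine ⟨fun g x => ℓ (fun s => c s g x), ?_, ?_⟩
  · intro g h x
    change ℓ (fun s => c s (g * h) x) = ℓ (fun s => c s g x) + ℓ (fun s => c s h ((q g)⁻¹ * x))
    rw [← map_add]
    have h1 : (fun s => c s (g * h) x) = (fun s => c s g x) + fun s => c s h ((q g)⁻¹ * x) := by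
      funext s
      exact hc1 s g h x
    rw [h1]
  · intro x y
    change ℓ (fun s => c s (φ (FreeGroup.of x)) y) = _
    rw [← hℓ]
    have h1 : (fun s => c s (φ (FreeGroup.of x)) y) = fun s => ((e x y : ℤ) : ZMod (p ^ s)) := by
      funext s
      exact hc2 s x y
    rw [h1]

end Pool.Agent.V8H64.PF
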