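import Pool.Agent.V8H64.PF.Inj
import Pool.Agent.V8H64.PF.Cmp
import Pool.Agent.R787.PNOP
import Pool.Agent.R928.PNCLO
import Pool.Agent.W649.ZL.Ops

set_option autoImplicit false

/-! # The index inequality from the von Neumann dimension of the space of `ℓ²` cocycles -/

open scoped InnerProductSpace InnerProduct ENNReal

namespace Pool.Agent.V8H64.PF

open Pool.Agent.W649.ZL Pool.Agent.R684.PN

/-- The value of a cocycle at an element of the group generated by the `h j` is given by an
equivariant bounded operator. -/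
theorem exists_T {H J : Type} [Group H] (h : J → H) (b : H)
    (hb : b ∈ Subgroup.closure (Set.range h)) :
    ∃ T : EE H J →L[ℂ] EE H Unit, Eqv T ∧ ∀ (f : EE H J) (c : H → H → ℂ),
      (∀ g k x, c (g * k) x = c g x + c k (g⁻¹ * x)) → (∀ j x, f (x, j) = c (h j) x) →
      ∀ x, T f (x, ()) = c b x := by
  classical
  induction hb using Subgroup.closure_induction with
  | mem x hx =>
    obtain ⟨j, rfl⟩ := hx
    refine ⟨elem (1 : H) () j, elem_eqv _ _ _, fun f c hc hf x => ?_⟩
    rw [elem_apply]
    simp [hf]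
  | one =>
    refine ⟨0, fun k f => by ext x; rfl, fun f c hc hf x => ?_⟩
    have h1 := hc 1 1 x
    simp only [mul_one, inv_one, one_mul] at h1
    have h2 : c 1 x = 0 := by simpa using h1
    rw [h2]; rfl
  | mul x y _ _ ihx ihy =>
    obtain ⟨Tx, hTx, hx⟩ := ihx
    obtain ⟨Ty, hTy, hy⟩ := ihy
    refine ⟨Tx + (elem x () ()).comp Ty, ?_, fun f c hc hf z => ?_⟩
    · intro k f
      rw [_root_.add_apply, _root_.add_apply,
        ContinuousLinearMap.comp_apply, ContinuousLinearMap.comp_apply, hTx, hTy, elem_eqv, tr_add]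
    · have e1 : (Tx + (elem x () ()).comp Ty) f (z, ()) = Tx f (z, ()) +
          elem x () () (Ty f) (z, ()) := rfl
      rw [e1, hx f c hc hf, elem_apply]
      simp only [if_true]
      rw [hy f c hc hf, hc]
  | inv x _ ihx =>
    obtain ⟨Tx, hTx, hx⟩ := ihx
    refine ⟨-((elem x⁻¹ () ()).comp Tx), ?_, fun f c hc hf z => ?_⟩
    · intro k f
      rw [_root_.neg_apply, _root_.neg_apply,
        ContinuousLinearMap.comp_apply, ContinuousLinearMap.comp_apply, hTx, elem_eqv]
      ext x; rfl
    · have e1 : (-((elem x⁻¹ () ()).comp Tx)) f (z, ()) = -(elem x⁻¹ () () (Tx f) (z, ())) := rfl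
      rw [e1, elem_apply]
      simp only [if_true, inv_inv]
      rw [hx f c hc hf]
      have h1 := hc x⁻¹ x z
      have h2 := hc 1 1 z
      simp only [mul_one, inv_one, one_mul] at h2
      rw [inv_mul_cancel, inv_inv] at h1
      have h3 : c 1 z = 0 := by simpa using h2
      rw [h3] at h1
      linear_combination h1

/-- the space of the `f` at which the operator vanishes has dimension `|J| - 1` -/
theorem vd_ker {H J : Type} [Group H] [Fintype J] (h : J → H) (b : H)
    (hb' : ¬ IsOfFinOrder b) (T : EE H J →L[ℂ] EE H Unit) (hT : Eqv T)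
    (hTc : ∀ (f : EE H J) (c : H → H → ℂ),
      (∀ g k x, c (g * k) x = c g x + c k (g⁻¹ * x)) → (∀ j x, f (x, j) = c (h j) x) →
      ∀ x, T f (x, ()) = c b x) :
    vd (LinearMap.ker (T : EE H J →ₗ[ℂ] EE H Unit)) = Fintype.card J - 1 := by
  classical
  have h1 := rank_nullity T hT (U := ⊤) (fun _ _ _ => trivial) (by simp)
  rw [vd_top, top_inf_eq] at h1
  have h2 : vd ((⊤ : Submodule ℂ (EE H J)).map (T : EE H J →ₗ[ℂ] EE H Unit)) = 1 := by
    rw [← vd_closure]
    have h3 : ((⊤ : Submodule ℂ (EE H J)).map (T : EE H J →ₗ[ℂ] EE H Unit)).topologicalClosure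
        = ⊤ := by
      rw [Submodule.topologicalClosure_eq_top_iff, Submodule.eq_bot_iff]
      intro v hv
      rw [Submodule.mem_orthogonal] at hv
      -- the coboundaries
      have hcob : ∀ y : H, v (b * y, ()) = v (y, ()) := by
        intro y
        set u : EE H Unit := dl (y, ()) with hu
        have hmem : Memℓp (fun x : H × J => u ((h x.2)⁻¹ * x.1, ()) - u (x.1, ())) 2 := by
          have e : (fun x : H × J => u ((h x.2)⁻¹ * x.1, ()) - u (x.1, ()))
              = ⇑(∑ j : J, (elem (h j) j () u - elem (1 : H) j () u) : EE H J) := by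
            funext x
            rw [lp.coeFn_sum, Finset.sum_apply]
            rw [Finset.sum_eq_single x.2]
            · rw [lp.coeFn_sub, Pi.sub_apply, elem_apply, elem_apply]
              simp
            · intro j _ hj
              rw [lp.coeFn_sub, Pi.sub_apply, elem_apply, elem_apply, if_neg (Ne.symm hj),
                if_neg (Ne.symm hj), sub_zero]
            · intro hx; exact absurd (Finset.mem_univ _) hx
          rw [e]
          exact lp.memℓp _
        set f : EE H J := ⟨_, hmem⟩ with hf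
        have hTf : ∀ x, T f (x, ()) = u (b⁻¹ * x, ()) - u (x, ()) := by
          intro x
          refine hTc f (fun g x => u (g⁻¹ * x, ()) - u (x, ())) ?_ ?_ x
          · intro g k x
            simp only [mul_inv_rev, mul_assoc]
            ring
          · intro j x; rfl
        have hTf' : T f = dl (b * y, ()) - dl (y, ()) := by
          ext ⟨x, ⟨⟩⟩
          rw [hTf, lp.coeFn_sub, Pi.sub_apply]
          congr 1
          by_cases hx : x = b * y
          · rw [hx, dl_apply_self, inv_mul_cancel_left, hu, dl_apply_self]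
          · have e1 : (dl (b * y, ()) : EE H Unit) (x, ()) = 0 :=
              dl_apply_ne _ _ fun he => hx (Prod.mk.inj he).1
            have e2 : (dl (y, ()) : EE H Unit) (b⁻¹ * x, ()) = 0 :=
              dl_apply_ne _ _ fun he => hx (by
                rw [← inv_mul_eq_iff_eq_mul]
                exact (Prod.mk.inj he).1)
            rw [hu, e2]
            exact e1.symm
        have h4 := hv (T f) ⟨f, trivial, rfl⟩
        rw [hTf', inner_sub_left, inner_dl_left, inner_dl_left, sub_eq_zero] at h4
        exact h4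
      ext ⟨x, ⟨⟩⟩
      have hs : Summable fun x : H => ‖v (x, ())‖ ^ 2 := by
        have := (memlp_two_iff _).1 v.2
        exact this.comp_injective (i := fun x : H => (x, ())) (fun a b h => (Prod.mk.inj h).1)
      refine vanish (fun x => v (x, ())) hs b hb' x ?_
      intro j
      induction j with
      | zero => simp
      | succ j ih =>
        rw [← ih]
        change v (b⁻¹ ^ (j + 1) * x, ()) = v (b⁻¹ ^ j * x, ())
        rw [← hcob (b⁻¹ ^ (j + 1) * x), pow_succ', mul_assoc, mul_inv_cancel_left]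
    rw [h3, vd_top]
    simp
  rw [h2] at h1
  linarith

/-- **The index inequality.** -/
theorem index_ineq {Γ S J : Type} [Group Γ] [Fintype S] [Fintype J] (σ : S → Γ)
    (hσ : ∀ g : Γ, ∃ L : List S, (L.map σ).prod = g) (r : ℝ)
    (hr : r ≤ vd (UU σ (MonoidHom.id Γ) ∅)) (N : Subgroup Γ) (h : J → Γ)
    (hN : Subgroup.closure (Set.range h) = N) (a : Γ) (ha : ¬ IsOfFinOrder a)
    (hpow : ∀ g : Γ, ∃ k : ℕ, 0 < k ∧ g⁻¹ * a ^ k * g ∈ N) (m : ℕ) (g : Fin m → Γ)
    (hg : ∀ t t' : Fin m, (g t)⁻¹ * g t' ∈ N → t = t') :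
    (m : ℝ) * (r - 1) ≤ Fintype.card J - 1 := by
  classical
  choose W hW using hσ
  set L₀ : List S := W a with hL₀
  have hL₀' : (L₀.map σ).prod = a := hW a
  set U : Submodule ℂ (EE Γ S) := UU σ (MonoidHom.id Γ) ∅ with hU
  set U' : Submodule ℂ (EE Γ S) := UU σ (MonoidHom.id Γ) {L₀} with hU'
  obtain ⟨hUc, hUi⟩ := Pool.Agent.R928.PNCLO.t_CLO Γ Γ S σ (MonoidHom.id Γ) ∅
  obtain ⟨hUc', hUi'⟩ := Pool.Agent.R928.PNCLO.t_CLO Γ Γ S σ (MonoidHom.id Γ) {L₀}
  -- step 1: imposing the vanishing at `a`
  have h1 : r - 1 ≤ vd U' := by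
    obtain ⟨T₀, hT₀⟩ := Pool.Agent.R787.PNOP.t_OP Γ Γ S Unit σ (MonoidHom.id Γ)
      Function.injective_id (fun _ => L₀)
    have hT₀e : Eqv T₀ := by
      intro k f
      ext ⟨x, ⟨⟩⟩
      rw [hT₀, tr_apply, hT₀]
      exact Pool.Agent.R928.PNCLO.DD_tr σ k f L₀ x
    have h2 := rank_nullity T₀ hT₀e hUi hUc
    have h3 : U ⊓ LinearMap.ker (T₀ : EE Γ S →ₗ[ℂ] EE Γ Unit) = U' := by
      ext f
      constructor
      · rintro ⟨hf1, hf2⟩
        refine (mem_UU _ _ _ _).2 ⟨((mem_UU _ _ _ _).1 hf1).1, ?_⟩
        intro L hL x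
        rw [Set.mem_singleton_iff] at hL
        rw [hL]
        have hf2' : T₀ f = 0 := hf2
        have := hT₀ f x ()
        rw [hf2'] at this
        exact this.symm
      · intro hf
        obtain ⟨hf1, hf2⟩ := (mem_UU _ _ _ _).1 hf
        refine ⟨(mem_UU _ _ _ _).2 ⟨hf1, fun L hL => absurd hL (Set.notMem_empty L)⟩, ?_⟩
        change T₀ f = 0
        ext ⟨x, ⟨⟩⟩
        rw [hT₀]
        exact hf2 L₀ rfl x
    rw [h3] at h2
    have h4 : vd (U.map (T₀ : EE Γ S →ₗ[ℂ] EE Γ Unit)) ≤ 1 := by
      refine (vd_mono (le_top : _ ≤ (⊤ : Submodule ℂ (EE Γ Unit)))).trans ?_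
      rw [vd_top]
      simp
    linarith
  -- step 2: the target space
  obtain ⟨k, hk, hkN⟩ := hpow 1
  have hkN' : a ^ k ∈ N := by simpa using hkN
  set h' : J → N := fun j => ⟨h j, by rw [← hN]; exact Subgroup.subset_closure ⟨j, rfl⟩⟩ with hh'
  set b : N := ⟨a ^ k, hkN'⟩ with hb
  have hbcl : b ∈ Subgroup.closure (Set.range h') := by
    have h2 : (Subgroup.closure (Set.range h')).map N.subtype = N := by
      rw [MonoidHom.map_closure, ← Set.range_comp]
      exact hN
    have h3 : (b : Γ) ∈ (Subgroup.closure (Set.range h')).map N.subtype := by rw [h2]; exact hkN'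
    obtain ⟨y, hy, hy2⟩ := h3
    have : y = b := Subtype.ext hy2
    rw [← this]; exact hy
  have hbf : ¬ IsOfFinOrder b := by
    intro hf
    have h2 : IsOfFinOrder (a ^ k) := by
      have := N.subtype.isOfFinOrder hf
      exact this
    exact ha ((isOfFinOrder_pow.1 h2).resolve_right (by omega))
  obtain ⟨T, hTe, hTc⟩ := exists_T h' b hbcl
  have h5 := vd_ker h' b hbf T hTe hTc
  rw [← h5]
  -- step 3: the restriction operator
  obtain ⟨B, hB⟩ := Pool.Agent.R787.PNOP.t_OP Γ N S J σ N.subtype N.subtype_injective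
    (fun j => W (h j))
  have hBe : ∀ (k : N) (f : EE Γ S), B (tr (N.subtype k) f) = tr k (B f) := by
    intro k f
    ext ⟨x, j⟩
    rw [hB, tr_apply, hB, map_mul]
    exact Pool.Agent.R928.PNCLO.DD_tr σ _ f _ _
  have h6 : (m : ℝ) * vd U' ≤ vd (LinearMap.ker (T : EE N J →ₗ[ℂ] EE N Unit)) := by
    refine cmp N.subtype N.subtype_injective U' hUc' hUi' B hBe ?_ _ ?_ m g ?_
    · intro f hf hBf
      refine injg σ (fun g => ⟨W g, hW g⟩) N (fun j => W (h j)) ?_ L₀ (by rw [hL₀']; exact ha)
        (by rw [hL₀']; exact hpow) f hf ?_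
      · rw [← hN]
        congr 2
        funext j
        exact hW _
      · intro n j
        have := hB f n j
        rw [hBf] at this
        exact this.symm
    · intro f hf
      change T (B f) = 0
      obtain ⟨hf1, hf2⟩ := (mem_UU _ _ _ _).1 hf
      have hf1' : ∀ L L' : List S, (L.map σ).prod = (L'.map σ).prod →
        ∀ x, DD σ L f x = DD σ L' f x := hf1
      have hf2' : ∀ x, DD σ L₀ f x = 0 := hf2 L₀ rfl
      have hcL : ∀ (L : List S) x, DD σ L f x = DD σ (W (L.map σ).prod) f x := fun L x =>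
        hf1' _ _ (hW _).symm x
      have hmul : ∀ g h x, DD σ (W (g * h)) f x = DD σ (W g) f x + DD σ (W h) f (g⁻¹ * x) := by
        intro g h x
        have h1 : ((W g ++ W h).map σ).prod = g * h := by
          rw [List.map_append, List.prod_append, hW, hW]
        rw [← h1, ← hcL, DD_append, hW]
      have cak : ∀ (k : ℕ) x, DD σ (W (a ^ k)) f x = 0 := by
        intro k
        induction k with
        | zero =>
          intro x
          rw [pow_zero]
          have := hmul 1 1 x
          simpa using this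
        | succ k ih => intro x; rw [pow_succ, hmul, ih, hf2', add_zero]
      have h7 := hTc (B f) (fun g x => DD σ (W g) f x) ?_ ?_
      · ext ⟨x, ⟨⟩⟩
        rw [h7]
        exact cak k _
      · intro g k x
        have := hmul g k x
        simpa using this
      · intro j x
        rw [hB]
        rfl
    · intro t t' n he
      apply hg
      rw [← he, inv_mul_cancel_left]
      exact n.2
  have h7 : (m : ℝ) * (r - 1) ≤ m * vd U' := by gcongr
  linarith

end Pool.Agent.V8H64.PF
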