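import Pool.Agent.V8H64.PF.Der
import Pool.Agent.V8H64.PF.Ineq
import Pool.Agent.R372.VG.LIMG
import Pool.Agent.R372.VG.TR

set_option autoImplicit false

/-! # The index inequality for parafree groups -/

namespace Pool.Agent.V8H64.PF

open Pool.Agent.Results.MP_b9ac25_al.FreeTypeInduced
open Pool.Agent.W649.ZL (vd)
open Pool.Agent.R684.PN Pool.Agent.R684.VG

universe u v w

/-- lower bound of the dimension at a finite level -/
theorem lower_fin {P : Type u} [Group P] {X : Type v} {φ : FreeGroup X →* P}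
    (hφ : ∀ n : ℕ, Function.Bijective (induced φ n)) (p : ℕ) (hp : p.Prime) {Γ S : Type}
    [Group Γ] [Fintype S] (σ : S → Γ) (hσ : Gen σ) (j : Γ →* P) (r : ℕ) (x : Fin r → X)
    (hx : Function.Injective x) (y : Fin r → Γ) (hy : ∀ i, j (y i) = φ (FreeGroup.of (x i)))
    (Q : Type) [Group Q] [Finite Q] (hQ : IsPGroup p Q) (q : P →* Q) :
    (r : ℝ) ≤ vd (UU σ (q.comp j) ∅) := by
  classical
  have := Fintype.ofFinite Q
  have h1 := Pool.Agent.R372.VG.TR.t_TR Γ Q S σ hσ (q.comp j)
  have hfd : FiniteDimensional ℂ (ZZ (q.comp j)) := by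
    have h2 := Pool.Agent.R372.VG.TR.ev_bij σ hσ (q.comp j)
    have : FiniteDimensional ℂ (Pool.Agent.W649.ZL.EE Q S) := Pool.Agent.R372.VG.TR.fin_dim
    exact FiniteDimensional.of_injective
      ((UU σ (q.comp j) ∅).subtype ∘ₗ Pool.Agent.R372.VG.TR.ev σ (q.comp j))
      (Subtype.val_injective.comp h2.1)
  let E : ZZ (q.comp j) →ₗ[ℂ] (Fin r × Q → ℂ) :=
    { toFun := fun c z => c.1 (y z.1) z.2
      map_add' := fun c d => rfl
      map_smul' := fun a c => rfl }
  have hE : ∀ z : Fin r × Q, ∃ c : ZZ (q.comp j), E c = Pi.single z 1 := by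
    intro z
    obtain ⟨c, hc1, hc2⟩ := exists_der hφ p hp Q hQ q
      (fun x' y' => if x' = x z.1 ∧ y' = z.2 then 1 else 0)
    refine ⟨⟨fun g t => c (j g) t, ?_⟩, ?_⟩
    · intro g h t
      have h0 := hc1 (j g) (j h) t
      rw [← map_mul] at h0
      exact h0
    · funext z'
      change c (j (y z'.1)) z'.2 = _
      rw [hy, hc2, Pi.single_apply]
      by_cases h : z' = z
      · rw [h]; simp
      · rw [if_neg h, if_neg, Int.cast_zero]
        rintro ⟨h3, h4⟩
        exact h (Prod.ext (hx h3) h4)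
  choose c hc using hE
  have hsurj : Function.Surjective E := by
    intro f
    refine ⟨∑ z, f z • c z, ?_⟩
    rw [map_sum]
    simp only [map_smul, hc]
    funext z
    rw [Finset.sum_apply, Finset.sum_eq_single z]
    · simp
    · intro z' _ hz'
      simp [hz'.symm]
    · intro h; exact absurd (Finset.mem_univ _) h
  have h3 := LinearMap.finrank_le_finrank_of_surjective (f := E) hsurj
  rw [Module.finrank_fintype_fun_eq_card, Fintype.card_prod, Fintype.card_fin] at h3
  have h4 : ((r * Fintype.card Q : ℕ) : ℝ) ≤ Module.finrank ℂ (ZZ (q.comp j)) := by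
    exact_mod_cast h3
  rw [← h1, Nat.card_eq_fintype_card, Nat.cast_mul] at h4
  have h5 : (0 : ℝ) < Fintype.card Q := by exact_mod_cast Fintype.card_pos
  exact le_of_mul_le_mul_right h4 h5

/-- lower bound of the dimension -/
theorem lower {P : Type u} [Group P] {X : Type v} {φ : FreeGroup X →* P}
    (hφ : ∀ n : ℕ, Function.Bijective (induced φ n))
    (hres : ∀ x : P, (∀ n : ℕ, x ∈ lcs P n) → x = 1) {Γ S : Type}
    [Group Γ] [Fintype S] (σ : S → Γ) (hσ : Gen σ) (j : Γ →* P) (hj : Function.Injective j)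
    (r : ℕ) (x : Fin r → X) (hx : Function.Injective x) (y : Fin r → Γ)
    (hy : ∀ i, j (y i) = φ (FreeGroup.of (x i))) :
    (r : ℝ) ≤ vd (UU σ (MonoidHom.id Γ) ∅) := by
  classical
  refine Pool.Agent.R372.VG.LIMG.t_LIMG Γ S σ ∅ r fun T => ?_
  obtain ⟨Q, i1, i2, f, hQ, hf⟩ := res_P_inj hφ hres 2 Nat.prime_two (T.image j)
  refine ⟨Q, i1, f.comp j, ?_, lower_fin hφ 2 Nat.prime_two σ hσ j r x hx y hy Q hQ f⟩
  intro s hs t ht hst
  apply hj
  refine hf ?_ ?_ hst
  · exact Finset.mem_coe.2 (Finset.mem_image_of_mem j hs)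
  · exact Finset.mem_coe.2 (Finset.mem_image_of_mem j ht)

/-- the index inequality for parafree groups -/
theorem parafree_ineq {P : Type u} [Group P] {X : Type v} {φ : FreeGroup X →* P}
    (hφ : ∀ n : ℕ, Function.Bijective (induced φ n))
    (hres : ∀ x : P, (∀ n : ℕ, x ∈ lcs P n) → x = 1) (H : Subgroup P) (d : ℕ) (h : Fin d → P)
    (hH : Subgroup.closure (Set.range h) = H) (a : P) (ha : a ≠ 1)
    (hpow : ∀ g : P, ∃ k : ℕ, 0 < k ∧ g⁻¹ * a ^ k * g ∈ H) (r : ℕ) (x : Fin r → X)
    (hx : Function.Injective x) (m : ℕ) (g : Fin m → P)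
    (hg : ∀ t t' : Fin m, (g t)⁻¹ * g t' ∈ H → t = t') :
    (m : ℝ) * (r - 1) ≤ d - 1 := by
  classical
  -- the finitely generated group
  let S' : Type := Fin d ⊕ Unit ⊕ Fin m ⊕ Fin r
  let s : S' → P := Sum.elim h (Sum.elim (fun _ => a) (Sum.elim g fun i => φ (FreeGroup.of (x i))))
  let Γ : Type := FreeGroup S' ⧸ (FreeGroup.lift s).ker
  let j : Γ →* P := QuotientGroup.kerLift (FreeGroup.lift s)
  have hj : Function.Injective j := QuotientGroup.kerLift_injective _
  let of' : S' → Γ := fun i => QuotientGroup.mk' _ (FreeGroup.of i)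
  have hof : ∀ i, j (of' i) = s i := by
    intro i
    change FreeGroup.lift s (FreeGroup.of i) = s i
    simp
  let σ : S' × Bool → Γ := fun z => cond z.2 (of' z.1) (of' z.1)⁻¹
  have hσ : Gen σ := by
    intro γ
    obtain ⟨w, rfl⟩ := QuotientGroup.mk'_surjective _ γ
    refine ⟨w.toWord, ?_⟩
    have h1 : QuotientGroup.mk' (FreeGroup.lift s).ker = FreeGroup.lift of' := by
      ext i
      simp [of']
    rw [h1]
    conv_rhs => rw [← FreeGroup.mk_toWord (x := w), FreeGroup.lift_mk]
  have hlow := lower hφ hres σ hσ j hj r x hx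
    (fun i => of' (Sum.inr (Sum.inr (Sum.inr i)))) (fun i => hof _)
  -- the subgroup
  let h' : Fin d → Γ := fun i => of' (Sum.inl i)
  have hN : ∀ γ : Γ, γ ∈ Subgroup.closure (Set.range h') ↔ j γ ∈ H := by
    intro γ
    have h1 : (Subgroup.closure (Set.range h')).map j = H := by
      rw [MonoidHom.map_closure, ← Set.range_comp, ← hH]
      congr 2
      funext i
      exact hof _
    rw [← h1]
    constructor
    · exact fun hγ => Subgroup.mem_map_of_mem j hγ
    · rintro ⟨γ', hγ', he⟩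
      rw [← hj he]
      exact hγ'
  have ha' : ¬ IsOfFinOrder (of' (Sum.inr (Sum.inl ()))) := by
    intro hf
    have := j.isOfFinOrder hf
    rw [hof] at this
    exact torsion_free hφ hres a ha this
  have key := index_ineq σ hσ r hlow (Subgroup.closure (Set.range h')) h' rfl
    (of' (Sum.inr (Sum.inl ()))) ha' ?_ m (fun t => of' (Sum.inr (Sum.inr (Sum.inl t)))) ?_
  · simpa using key
  · intro γ
    obtain ⟨k, hk, hk'⟩ := hpow (j γ)
    refine ⟨k, hk, ?_⟩
    rw [hN, map_mul, map_mul, map_inv, map_pow, hof]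
    exact hk'
  · intro t t' ht
    rw [hN, map_mul, map_inv, hof, hof] at ht
    exact hg t t' ht

end Pool.Agent.V8H64.PF
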